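import Pool.Agent.MP_c98bf6_al.H94.Alg

set_option autoImplicit false

namespace Pool.Agent.Results.MP_c98bf6_al.FiniteCentralizers

/-- For odd `p` there is an infinite two-generated residually finite `p`-group
`G = ⟨1 + y 0, 1 + y 1⟩` of unipotent units, over a residually nilpotent, non-nilpotent algebra,
in which every non-trivial element has a finite centralizer. -/
theorem result :
    ∀ (K : Type) [Field K] (p : ℕ), p.Prime → p ≠ 2 → CharP K p →
    ∃ (B : Type) (_ : Ring B) (_ : Algebra K B) (y : Fin 2 → B) (G : Subgroup Bˣ),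
      G = Subgroup.closure {u : Bˣ | ∃ i, (u : B) = 1 + y i} ∧ (∀ i, IsUnit (1 + y i)) ∧
      (∀ g ∈ G, IsNilpotent ((g : B) - 1)) ∧
      (∀ n : ℕ, ∃ w : Fin n → Fin 2, (List.ofFn (fun i => y (w i))).prod ≠ 0) ∧
      (⨅ n : ℕ, (NonUnitalAlgebra.adjoin K (Set.range y)).toSubmodule ^ (n + 1) = ⊥) ∧
      Infinite G ∧ IsPGroup p G ∧ Group.ResiduallyFinite G ∧
      ∀ g ∈ G, g ≠ 1 → {h : Bˣ | h ∈ G ∧ h * g = g * h}.Finite := by
  intro K _ p hp hp2 _
  have : Fact p.Prime := ⟨hp⟩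
  obtain ⟨G, _, e, h1, _, h3, _, h5⟩ := H94G.group p hp2
  exact H94G.wrap K p G h3 e h1 h5

end Pool.Agent.Results.MP_c98bf6_al.FiniteCentralizers
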