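import Pool.Agent.MP_c98bf6_al.H38.Golod

set_option autoImplicit false

namespace Pool.Agent.Results.MP_c98bf6_al.Quadratic

open Pool.Agent.MP_c98bf6_al.H38

/-- Golod groups in odd characteristic: quadratically generated finite subgroups have infinite
centralizers (also inside every infinite subgroup containing them). -/
theorem result :
    ∀ (K : Type) [Field K] (p : ℕ), p.Prime → p ≠ 2 → CharP K p →
    ∀ (B : Type) [Ring B] [Algebra K B] (r : ℕ), 2 ≤ r → ∀ (y : Fin r → B),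
      (∀ a ∈ NonUnitalAlgebra.adjoin K (Set.range y), IsNilpotent a) →
      (∀ n : ℕ, ∃ w : Fin n → Fin r, (List.ofFn (fun i => y (w i))).prod ≠ 0) →
      ∀ G : Subgroup Bˣ, G = Subgroup.closure {u : Bˣ | ∃ i, (u : B) = 1 + y i} →
      ∀ F H : Subgroup Bˣ, F ≤ H → H ≤ G → (H = G ∨ (H : Set Bˣ).Infinite) →
        (((F : Set Bˣ).Finite ∧
          ((∀ J : Submodule K B, (∀ f ∈ F, ∀ z ∈ J, (f : B) * z ∈ J ∧ z * (f : B) ∈ J) →
              (∃ f ∈ F, (f : B) - 1 ∉ J) → ∃ g ∈ F, (g : B) - 1 ∉ J ∧ ((g : B) - 1) ^ 2 ∈ J) ∨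
            (∃ s : Set Bˣ, F = Subgroup.closure s ∧ ∀ g ∈ s, ((g : B) - 1) ^ 2 = 0) ∨
            (∀ f ∈ F, ∃ g ∈ F, (g : B) = 1 + ((f : B) - 1) ^ 2))) ∨
          (∃ a b : Bˣ, F = Subgroup.closure {a, b} ∧ ((a : B) - 1) ^ 2 = 0 ∧
            ((b : B) - 1) ^ 2 = 0)) →
        {h : Bˣ | h ∈ H ∧ ∀ f ∈ F, h * f = f * h}.Infinite := by
  intro K _ p hp hp2 _ B _ _ r _ y hnil hnn G hG F H hFH hHG hH hQ
  have hodd : Odd p := hp.odd_of_ne_two hp2
  have hmem : ∀ u ∈ G, (u : B) - 1 ∈ NonUnitalAlgebra.adjoin K (Set.range y) :=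
    fun u hu => golod_mem y hnil (hG ▸ hu)
  have hinf : (G : Set Bˣ).Infinite := hG ▸ golod_infinite y hnil hnn
  have h1 := units_main hodd _ hnil H F (fun u hu => hmem u (hHG hu)) hFH
    (hH.elim (fun e => e ▸ hinf) id)
  rcases hQ with ⟨hF, hQ | ⟨s, rfl, hs⟩ | hQ⟩ | ⟨a, b, rfl, ha2, hb2⟩
  · refine h1 hF fun J hJ hex => ?_
    obtain ⟨g, hg, h⟩ := hQ J hJ hex
    exact ⟨g, hg, h.1, by rw [← sq]; exact h.2⟩
  · exact h1 hF (QP_closure _ s fun g hg => by rw [← sq]; exact hs g hg)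
  · exact h1 hF (QP_sq F (fun f hf => hnil _ (hmem f (hHG (hFH hf)))) hQ)
  · rw [sq] at ha2 hb2
    have hpB : (p : B) = 0 := by rw [← map_natCast (algebraMap K B), CharP.cast_eq_zero, map_zero]
    have ha : a ∈ G := hHG (hFH (Subgroup.subset_closure (by simp)))
    have hb : b ∈ G := hHG (hFH (Subgroup.subset_closure (by simp)))
    refine h1 (pair_finite hp hpB ha2 hb2 (hnil _ (mul_mem (hmem b hb) (hmem a ha))))
      (QP_closure _ _ ?_)
    rintro _ (rfl | rfl); exacts [ha2, hb2]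

end Pool.Agent.Results.MP_c98bf6_al.Quadratic
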